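import Pool.Agent.Lead.Sub2

set_option autoImplicit false

namespace Pool.Agent.Results.MP_7fb2f0_pr.Q1
open Pool.Agent.Lead.Sub

/-- The edge marginal of the uniform connected spanning subgraph with `r = |V| + k` edges can
decrease when the excess `k` grows by one. -/
theorem result : ∃ (n : ℕ) (G : SimpleGraph (Fin n)) (e : Sym2 (Fin n)) (r : ℕ),
    G.Connected ∧ e ∈ G.edgeSet ∧ n ≤ r + 1 ∧ r < G.edgeSet.ncard ∧
      marg (conns G (r + 1)) e < marg (conns G r) e :=
  ⟨11, gr ((0, 5) :: L11), s(0, 5), 10, conn11, adj11, by norm_num, by rw [card11]; norm_num,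
    key11⟩

end Pool.Agent.Results.MP_7fb2f0_pr.Q1
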